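import Pool.Agent.helper7.AL.Spec

set_option autoImplicit false

namespace Pool.Agent.AL

open Finset Pool.Agent.helper85.FC Pool.Agent.helper11.MK

theorem BOX_step (h : DPP_stmt) (k : ℕ) (ε : ℝ) (hε : 0 < ε) :
    ∃ (δ : ℝ) (L₀ : ℕ), 0 < δ ∧ ∀ (β : Type) (A : Finset ℤ) (B : Finset β) (T : Finset (ℤ × β)),
      T ⊆ A ×ˢ B → L₀ ≤ #A → ε * (#A * #B) ≤ #T →
      ∃ A' ⊆ A, #A' = k ∧ ∃ T' ⊆ B, δ * #B ≤ #T' ∧ ∀ w ∈ T', ∀ a ∈ A', (a, w) ∈ T := by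
  obtain ⟨δ, L₀, hδ, H⟩ := h k ε hε
  refine ⟨δ, L₀, hδ, ?_⟩
  intro β A B T hT hL hc
  obtain ⟨A', hA', hcA, h1⟩ := H β A B T hT hL (by rw [mul_assoc]; exact hc)
  refine ⟨A', hA', hcA, _, ?_, h1, ?_⟩
  · intro w hw
    simp only [Finset.mem_filter] at hw
    exact hw.1
  · intro w hw
    simp only [Finset.mem_filter] at hw
    exact hw.2

theorem BOX (h : DPP_stmt) : BOX_stmt := by
  intro k ε hε
  obtain ⟨δ₁, L₁, hδ₁, H₁⟩ := BOX_step h k ε hε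
  obtain ⟨δ₂, L₂, hδ₂, H₂⟩ := BOX_step h k δ₁ hδ₁
  obtain ⟨δ₃, L₃, hδ₃, H₃⟩ := BOX_step h k δ₂ hδ₂
  obtain ⟨L₄, hL₄⟩ := exists_nat_ge ((k : ℝ) / δ₃)
  refine ⟨max (max L₁ L₂) (max L₃ L₄), ?_⟩
  intro L X Y T hL hX hY hT hcard
  have e1 : L₁ ≤ L := le_trans (le_trans (le_max_left _ _) (le_max_left _ _)) hL
  have e2 : L₂ ≤ L := le_trans (le_trans (le_max_right _ _) (le_max_left _ _)) hL
  have e3 : L₃ ≤ L := le_trans (le_trans (le_max_left _ _) (le_max_right _ _)) hL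
  have e4 : L₄ ≤ L := le_trans (le_trans (le_max_right _ _) (le_max_right _ _)) hL
  obtain ⟨X₁, hX₁, hcX₁, T₁, hT₁, h1, g1⟩ := H₁ (ℤ × ℤ × ℤ) X (Y ×ˢ X ×ˢ Y) T hT (by rw [hX]; exact e1)
    (by
      rw [Finset.card_product, Finset.card_product, hX, hY]
      push_cast
      calc ε * ((L : ℝ) * (L * (L * L))) = ε * (L : ℝ) ^ 4 := by ring
        _ ≤ _ := hcard)
  rw [Finset.card_product] at h1
  push_cast at h1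
  obtain ⟨Y₁, hY₁, hcY₁, T₂, hT₂, h2, g2⟩ := H₂ (ℤ × ℤ) Y (X ×ˢ Y) T₁ hT₁ (by rw [hY]; exact e2) h1
  rw [Finset.card_product] at h2
  push_cast at h2
  obtain ⟨X₂, hX₂, hcX₂, T₃, hT₃, h3, g3⟩ := H₃ ℤ X Y T₂ hT₂ (by rw [hX]; exact e3) h2
  have h4 : k ≤ #T₃ := by
    have h5 : (k : ℝ) ≤ δ₃ * #Y := by
      rw [div_le_iff₀ hδ₃] at hL₄
      have h6 : (L₄ : ℝ) ≤ #Y := by rw [hY]; exact_mod_cast e4
      calc (k : ℝ) ≤ L₄ * δ₃ := hL₄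
        _ ≤ #Y * δ₃ := mul_le_mul_of_nonneg_right h6 hδ₃.le
        _ = δ₃ * #Y := by ring
    exact_mod_cast h5.trans h3
  obtain ⟨Y₂, hY₂, hcY₂⟩ := Finset.exists_subset_card_eq h4
  refine ⟨X₁, hX₁, Y₁, hY₁, X₂, hX₂, Y₂, hY₂.trans hT₃, hcX₁, hcY₁, hcX₂, hcY₂, ?_⟩
  intro x hx y hy x' hx' y' hy'
  exact g1 _ (g2 _ (g3 _ (hY₂ hy') x' hx') y hy) x hx

end Pool.Agent.AL
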