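import Pool.Agent.helper7.AL.Spec

set_option autoImplicit false

namespace Pool.Agent.AL

open Finset Pool.Agent.helper85.FC Pool.Agent.helper11.MK

open Classical in
theorem DPP_good {β : Type} (A : Finset ℤ) (B : Finset β) (T : Finset (ℤ × β)) (ε : ℝ) (N : ℕ) (hε : 0 < ε)
    (hT : T ⊆ A ×ˢ B) (hB : 0 < #B) (hcard : ε * #A * #B ≤ #T) (hA : (2 * N : ℝ) < ε * #A) :
    ∃ A₀ ⊆ A, #A₀ = N ∧ ∀ a ∈ A₀, ε / 2 * #B ≤ #{w ∈ B | (a, w) ∈ T} := by
  set Gd : Finset ℤ := {a ∈ A | ε / 2 * #B ≤ #{w ∈ B | (a, w) ∈ T}} with hGd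
  have hTsum : #T = ∑ a ∈ A, #{w ∈ B | (a, w) ∈ T} := by
    have h1 : #T = ∑ a ∈ A, #{p ∈ T | p.1 = a} := by
      apply Finset.card_eq_sum_card_fiberwise
      intro p hp
      exact (Finset.mem_product.mp (hT hp)).1
    rw [h1]
    apply Finset.sum_congr rfl
    intro a ha
    apply Finset.card_bij (fun p _ => p.2)
    · intro p hp
      rw [Finset.mem_filter] at hp
      rw [Finset.mem_filter]
      have h2 := Finset.mem_product.mp (hT hp.1)
      refine ⟨h2.2, ?_⟩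
      rw [← hp.2]
      exact hp.1
    · intro p hp q hq hpq
      rw [Finset.mem_filter] at hp hq
      exact Prod.ext (hp.2.trans hq.2.symm) hpq
    · intro w hw
      rw [Finset.mem_filter] at hw
      exact ⟨(a, w), by rw [Finset.mem_filter]; exact ⟨hw.2, rfl⟩, rfl⟩
  have hle : (#T : ℝ) ≤ #Gd * #B + ε / 2 * #B * #A := by
    rw [hTsum]
    push_cast
    have h3 : ∀ a ∈ A, (#{w ∈ B | (a, w) ∈ T} : ℝ) ≤ (if a ∈ Gd then (#B : ℝ) else 0) + ε / 2 * #B := by
      intro a ha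
      by_cases hg : a ∈ Gd
      · rw [if_pos hg]
        have h4 : (#{w ∈ B | (a, w) ∈ T} : ℝ) ≤ #B := by exact_mod_cast Finset.card_filter_le _ _
        have h5 : 0 ≤ ε / 2 * #B := by positivity
        linarith
      · rw [if_neg hg]
        have h4 : ¬ (ε / 2 * #B ≤ #{w ∈ B | (a, w) ∈ T}) := by
          intro h
          exact hg (by rw [hGd, Finset.mem_filter]; exact ⟨ha, h⟩)
        push Not at h4
        linarith
    refine le_trans (Finset.sum_le_sum h3) ?_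
    rw [Finset.sum_add_distrib, Finset.sum_const, nsmul_eq_mul, ← Finset.sum_filter, Finset.sum_const, nsmul_eq_mul]
    have h6 : Finset.filter (fun a => a ∈ Gd) A = Gd := by
      ext a
      rw [Finset.mem_filter]
      constructor
      · exact fun h => h.2
      · intro h
        have h' := h
        rw [hGd, Finset.mem_filter] at h'
        exact ⟨h'.1, h⟩
    rw [h6]
    nlinarith
  have hB' : (0 : ℝ) < #B := by exact_mod_cast hB
  have hN : N ≤ #Gd := by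
    have h7 : ε / 2 * #A * #B ≤ #Gd * #B := by nlinarith
    have h8 : ε / 2 * #A ≤ #Gd := le_of_mul_le_mul_right h7 hB'
    have h9 : (N : ℝ) ≤ #Gd := by linarith
    exact_mod_cast h9
  obtain ⟨A₀, hA₀, hc⟩ := Finset.exists_subset_card_eq hN
  refine ⟨A₀, hA₀.trans (Finset.filter_subset _ _), hc, ?_⟩
  intro a ha
  have hmem := hA₀ ha
  rw [hGd, Finset.mem_filter] at hmem
  exact hmem.2

open Classical in
theorem DPP_many {β : Type} (A₀ : Finset ℤ) (B : Finset β) (T : Finset (ℤ × β)) (ε : ℝ) (N k : ℕ)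
    (hc : #A₀ = N) (hd : ∀ a ∈ A₀, ε / 2 * #B ≤ #{w ∈ B | (a, w) ∈ T}) (hN : (k + 1 : ℝ) ≤ N * (ε / 2)) :
    (#B : ℝ) ≤ N * #{w ∈ B | k ≤ #{a ∈ A₀ | (a, w) ∈ T}} := by
  have h1 : ∑ a ∈ A₀, #{w ∈ B | (a, w) ∈ T} = ∑ w ∈ B, #{a ∈ A₀ | (a, w) ∈ T} := by
    simp only [Finset.card_filter]
    exact Finset.sum_comm
  have h2 : (k + 1 : ℝ) * #B ≤ ∑ a ∈ A₀, (#{w ∈ B | (a, w) ∈ T} : ℝ) := by
    have h3 := Finset.sum_le_sum hd
    rw [Finset.sum_const, nsmul_eq_mul, hc] at h3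
    have h4 : (k + 1 : ℝ) * #B ≤ N * (ε / 2) * #B := mul_le_mul_of_nonneg_right hN (by positivity)
    calc (k + 1 : ℝ) * #B ≤ N * (ε / 2) * #B := h4
      _ = N * (ε / 2 * #B) := by ring
      _ ≤ _ := h3
  have h5 : (∑ a ∈ A₀, (#{w ∈ B | (a, w) ∈ T} : ℝ)) = ∑ w ∈ B, (#{a ∈ A₀ | (a, w) ∈ T} : ℝ) := by
    exact_mod_cast h1
  rw [h5] at h2
  have h6 : ∀ w ∈ B, (#{a ∈ A₀ | (a, w) ∈ T} : ℝ) ≤
      (if k ≤ #{a ∈ A₀ | (a, w) ∈ T} then (N : ℝ) else 0) + k := by
    intro w hw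
    by_cases hk : k ≤ #{a ∈ A₀ | (a, w) ∈ T}
    · rw [if_pos hk]
      have h7 : #{a ∈ A₀ | (a, w) ∈ T} ≤ N := by rw [← hc]; exact Finset.card_filter_le _ _
      have h8 : (#{a ∈ A₀ | (a, w) ∈ T} : ℝ) ≤ N := by exact_mod_cast h7
      have h9 : (0 : ℝ) ≤ k := by positivity
      linarith
    · rw [if_neg hk]
      push Not at hk
      have h8 : (#{a ∈ A₀ | (a, w) ∈ T} : ℝ) ≤ k := by exact_mod_cast hk.le
      linarith
  have h10 := le_trans h2 (Finset.sum_le_sum h6)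
  rw [Finset.sum_add_distrib, Finset.sum_const, nsmul_eq_mul, ← Finset.sum_filter, Finset.sum_const,
    nsmul_eq_mul] at h10
  nlinarith

theorem DPP : DPP_stmt := by
  classical
  intro k ε hε
  obtain ⟨N, hN⟩ := exists_nat_ge ((k + 1 : ℝ) / (ε / 2))
  have hε2 : 0 < ε / 2 := by positivity
  have hN1 : (k + 1 : ℝ) ≤ N * (ε / 2) := by
    rw [div_le_iff₀ hε2] at hN
    exact hN
  have hNpos : 0 < N := by
    rcases Nat.eq_zero_or_pos N with h | h
    · rw [h] at hN1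
      have : (0 : ℝ) ≤ k := by positivity
      norm_num at hN1
      linarith
    · exact h
  obtain ⟨L₁, hL₁⟩ := exists_nat_gt ((2 * N : ℝ) / ε)
  have hNR : (0 : ℝ) < N := by exact_mod_cast hNpos
  refine ⟨1 / (2 * N * 2 ^ N), max L₁ k, by positivity, ?_⟩
  intro β A B T hT hL hcard
  have hLA : L₁ ≤ #A := le_trans (le_max_left _ _) hL
  have hkA : k ≤ #A := le_trans (le_max_right _ _) hL
  rcases Nat.eq_zero_or_pos (#B) with hB | hB
  · obtain ⟨A', hA', hc⟩ := Finset.exists_subset_card_eq hkA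
    refine ⟨A', hA', hc, ?_⟩
    rw [hB]
    simp
  · have hA : (2 * N : ℝ) < ε * #A := by
      rw [div_lt_iff₀ hε] at hL₁
      have h1 : (L₁ : ℝ) ≤ #A := by exact_mod_cast hLA
      calc (2 * N : ℝ) < L₁ * ε := hL₁
        _ ≤ #A * ε := mul_le_mul_of_nonneg_right h1 hε.le
        _ = ε * #A := by ring
    obtain ⟨A₀, hA₀, hc, hd⟩ := DPP_good A B T ε N hε hT hB hcard hA
    have hmany := DPP_many A₀ B T ε N k hc hd hN1
    by_contra hcon
    push Not at hcon
    have hcon' : ∀ A' ∈ Finset.powersetCard k A₀,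
        (#{w ∈ B | ∀ a ∈ A', (a, w) ∈ T} : ℝ) ≤ 1 / (2 * N * 2 ^ N) * #B := by
      intro A' hA'
      rw [Finset.mem_powersetCard] at hA'
      exact (hcon A' (hA'.1.trans hA₀) hA'.2).le
    have hsub : ({w ∈ B | k ≤ #{a ∈ A₀ | (a, w) ∈ T}} : Finset β) ⊆
        (Finset.powersetCard k A₀).biUnion (fun A' => {w ∈ B | ∀ a ∈ A', (a, w) ∈ T}) := by
      intro w hw
      rw [Finset.mem_filter] at hw
      obtain ⟨A', hA', hcA⟩ := Finset.exists_subset_card_eq hw.2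
      rw [Finset.mem_biUnion]
      refine ⟨A', ?_, ?_⟩
      · rw [Finset.mem_powersetCard]
        exact ⟨hA'.trans (Finset.filter_subset _ _), hcA⟩
      · rw [Finset.mem_filter]
        refine ⟨hw.1, ?_⟩
        intro a ha
        exact (Finset.mem_filter.mp (hA' ha)).2
    have h1 : (#{w ∈ B | k ≤ #{a ∈ A₀ | (a, w) ∈ T}} : ℝ) ≤
        ∑ A' ∈ Finset.powersetCard k A₀, (#{w ∈ B | ∀ a ∈ A', (a, w) ∈ T} : ℝ) := by
      have h2 := (Finset.card_le_card hsub).trans Finset.card_biUnion_le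
      exact_mod_cast h2
    have h3 := h1.trans (Finset.sum_le_sum hcon')
    rw [Finset.sum_const, nsmul_eq_mul] at h3
    have h4 : (#(Finset.powersetCard k A₀) : ℝ) ≤ 2 ^ N := by
      have h5 : #(Finset.powersetCard k A₀) ≤ #A₀.powerset :=
        Finset.card_le_card (fun s hs => by
          rw [Finset.mem_powersetCard] at hs
          exact Finset.mem_powerset.mpr hs.1)
      rw [Finset.card_powerset, hc] at h5
      exact_mod_cast h5
    have hBR : (0 : ℝ) < #B := by exact_mod_cast hB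
    have h6 : (#(Finset.powersetCard k A₀) : ℝ) * (1 / (2 * N * 2 ^ N) * #B) ≤ 2 ^ N * (1 / (2 * N * 2 ^ N) * #B) :=
      mul_le_mul_of_nonneg_right h4 (by positivity)
    have h7 : (2 : ℝ) ^ N * (1 / (2 * N * 2 ^ N) * #B) = #B / (2 * N) := by
      field_simp
    rw [h7] at h6
    have h8 : (#B : ℝ) ≤ N * (#B / (2 * N)) :=
      hmany.trans (mul_le_mul_of_nonneg_left (h3.trans h6) hNR.le)
    have h9 : (N : ℝ) * (#B / (2 * N)) = #B / 2 := by
      field_simp
    rw [h9] at h8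
    linarith

end Pool.Agent.AL
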